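import Pool.Agent.H78.STN.Stmts

/-!
# Board `stn`, row IVL: the integrals
-/

set_option autoImplicit false

open Polynomial

namespace Pool.STN

theorem ivl_term (a b : ℝ) (ha : 0 < a) (hab : a ≤ b) (k : ℤ) :
    (∫ x in a..b, x ^ k) =
      if k + 1 = 0 then Real.log (b / a) else (b ^ (k + 1) - a ^ (k + 1)) / ((k + 1 : ℤ) : ℝ) := by
  have h0 : (0 : ℝ) ∉ Set.uIcc a b := by
    rw [Set.uIcc_of_le hab]
    intro h
    exact absurd h.1 (not_le.2 ha)
  split_ifs with h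
  · have hk : k = -1 := by omega
    subst hk
    have h1 := integral_inv_of_pos ha (lt_of_lt_of_le ha hab)
    simpa only [zpow_neg_one] using h1
  · have h1 := integral_zpow (a := a) (b := b) (n := k) (Or.inr ⟨by omega, h0⟩)
    rw [h1]
    push_cast
    rfl

theorem ivl_int (a b : ℝ) (ha : 0 < a) (hab : a ≤ b) (k : ℤ) :
    IntervalIntegrable (fun x : ℝ => x ^ k) MeasureTheory.volume a b := by
  refine intervalIntegral.intervalIntegrable_zpow (Or.inr ?_)
  rw [Set.uIcc_of_le hab]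
  intro h
  exact absurd h.1 (not_le.2 ha)

theorem ivl_eval (hz : PZQStmt) (n : ℕ) (x : ℝ) :
    ((x - 6) ^ 3 * (x - 8) ^ 2 * (x - 9)) ^ n =
      ∑ j ∈ Finset.range (6 * n + 1), (((Pz ^ n).coeff j : ℤ) : ℝ) * x ^ j := by
  have hdeg : (Pz ^ n).natDegree ≤ 6 * n :=
    Polynomial.natDegree_le_iff_coeff_eq_zero.2 fun j hj => (hz n j).2 hj
  have h1 : ((Pz ^ n).map (Int.castRingHom ℝ)).natDegree < 6 * n + 1 :=
    lt_of_le_of_lt (Polynomial.natDegree_map_le) (by omega)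
  have h2 := Polynomial.eval_eq_sum_range' h1 x
  have h3 : ((Pz ^ n).map (Int.castRingHom ℝ)).eval x =
      ((x - 6) ^ 3 * (x - 8) ^ 2 * (x - 9)) ^ n := by
    simp [Pz, Polynomial.map_pow, Polynomial.map_mul, Polynomial.map_sub]
  rw [← h3, h2]
  refine Finset.sum_congr rfl fun j _ => ?_
  rw [Polynomial.coeff_map]
  rfl

theorem ivl_gg (hz : PZQStmt) (n i : ℕ) (a b : ℝ) (ha : 0 < a) (hab : a ≤ b) :
    (∫ x in a..b, gg n i x) = ∑ j ∈ Finset.range (6 * n + 1), (((Pz ^ n).coeff j : ℤ) : ℝ) *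
      (if (j : ℤ) + (-3 * (n : ℤ) - 1 + i) + 1 = 0 then Real.log (b / a) else
        (b ^ ((j : ℤ) + (-3 * (n : ℤ) - 1 + i) + 1) - a ^ ((j : ℤ) + (-3 * (n : ℤ) - 1 + i) + 1)) /
          (((j : ℤ) + (-3 * (n : ℤ) - 1 + i) + 1 : ℤ) : ℝ)) := by
  have h1 : (∫ x in a..b, gg n i x) = ∫ x in a..b, ∑ j ∈ Finset.range (6 * n + 1),
      (((Pz ^ n).coeff j : ℤ) : ℝ) * x ^ ((j : ℤ) + (-3 * (n : ℤ) - 1 + i)) := by
    refine intervalIntegral.integral_congr fun x hx => ?_
    rw [Set.uIcc_of_le hab] at hx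
    have hx0 : x ≠ 0 := (lt_of_lt_of_le ha hx.1).ne'
    show gg n i x = _
    unfold gg
    rw [ivl_eval hz, Finset.sum_mul]
    refine Finset.sum_congr rfl fun j _ => ?_
    rw [mul_assoc, ← zpow_natCast x j, ← zpow_add₀ hx0]
  rw [h1, intervalIntegral.integral_finsetSum fun j _ => (ivl_int a b ha hab _).const_mul _]
  refine Finset.sum_congr rfl fun j _ => ?_
  rw [intervalIntegral.integral_const_mul, ivl_term a b ha hab]

theorem IVL_thm (hz : PZQStmt) : IVLStmt := by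
  intro n i u v hn hi
  have hN : Nn u v (Pq ^ n) (-3 * n - 1 + i) = ∑ j ∈ Finset.range (6 * n + 1),
      (Pq ^ n).coeff j * ph u v ((j : ℤ) + (-3 * n - 1 + i) + 1) := by
    unfold Nn
    refine Polynomial.sum_over_range' _ (fun j => by rw [zero_mul]) _ ?_
    refine lt_of_le_of_lt (Polynomial.natDegree_le_iff_coeff_eq_zero.2 fun j hj => ?_)
      (Nat.lt_succ_self (6 * n))
    rw [(hz n j).1, (hz n j).2 hj, Int.cast_zero]
  have hc : (((Pz ^ n).coeff (3 * n - i) : ℤ) : ℝ) *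
      ((u : ℝ) * Real.log (4 / 3) + (v : ℝ) * Real.log (9 / 8)) =
      ∑ j ∈ Finset.range (6 * n + 1), (((Pz ^ n).coeff j : ℤ) : ℝ) *
        (if (j : ℤ) + (-3 * (n : ℤ) - 1 + i) + 1 = 0 then
          ((u : ℝ) * Real.log (4 / 3) + (v : ℝ) * Real.log (9 / 8)) else 0) := by
    rw [Finset.sum_eq_single (3 * n - i)]
    · rw [if_pos (by omega)]
    · intro j _ hj
      rw [if_neg (by omega), mul_zero]
    · intro h
      exact absurd (Finset.mem_range.2 (by omega)) h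
  rw [ivl_gg hz n i 6 8 (by norm_num) (by norm_num), ivl_gg hz n i 8 9 (by norm_num) (by norm_num),
    hN, hc, Finset.mul_sum, Finset.mul_sum, ← Finset.sum_add_distrib, Rat.cast_sum,
    ← Finset.sum_add_distrib]
  refine Finset.sum_congr rfl fun j _ => ?_
  rw [(hz n j).1]
  generalize (Pz ^ n).coeff j = c
  generalize (j : ℤ) + (-3 * (n : ℤ) - 1 + i) + 1 = m
  unfold ph
  by_cases hm : m = 0
  · subst hm
    simp only [if_true, Int.cast_zero, div_zero, mul_zero, Rat.cast_zero, add_zero]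
    have e1 : (8 : ℝ) / 6 = 4 / 3 := by norm_num
    rw [e1]
    ring
  · simp only [if_neg hm]
    have hm' : (m : ℝ) ≠ 0 := by exact_mod_cast hm
    push_cast
    field_simp
    ring

end Pool.STN
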